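import Pool.Agent.N449.SF.Core

/-!
# Factorizations of `b ^ N ± 1` into sparse factors lift to polynomials

If `c₀ d e = b ^ N + ε`, `ε = ± 1`, and `d`, `e` are sums of few multiples of powers of `b`, then there
are integer polynomials `A`, `B` with `A(1) = d`, `B(1) = e` and `c₀ A B = b ^ N X ^ q + ε`.
-/

set_option autoImplicit false

open Finset Polynomial

namespace Pool.Agent.U810.FS

theorem block_le {ι : Type*} {b : ℕ} (hb2 : 2 ≤ b) (I : Finset ι) (x : ι → ℕ) (c : ι → ℤ)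
    (ℓ : ι → ℤ) (hsum : ∑ a ∈ I, c a * (b : ℤ) ^ x a = 0)
    (hgap : ∀ a ∈ I, ∀ a' ∈ I, ℓ a < ℓ a' → (∑ a ∈ I, |c a|) * (b : ℤ) ^ x a < (b : ℤ) ^ x a')
    (L : ℤ) : ∑ a ∈ I with ℓ a ≤ L, c a * (b : ℤ) ^ x a = 0 := by
  classical
  have hbi : (2 : ℤ) ≤ b := by exact_mod_cast hb2
  set U := I.filter (fun a => ℓ a ≤ L) with hU
  set V := I.filter (fun a => ¬ ℓ a ≤ L) with hV
  have hUV : ∑ a ∈ U, c a * (b : ℤ) ^ x a + ∑ a ∈ V, c a * (b : ℤ) ^ x a = 0 := by
    rw [hU, hV, Finset.sum_filter_add_sum_filter_not, hsum]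
  rcases U.eq_empty_or_nonempty with hUe | hUn
  · rw [hUe]; simp
  rcases V.eq_empty_or_nonempty with hVe | hVn
  · rw [hVe] at hUV; simpa using hUV
  obtain ⟨a, haU, ha⟩ := U.exists_max_image x hUn
  obtain ⟨a', hbV, hb⟩ := V.exists_min_image x hVn
  have haI : a ∈ I := (Finset.mem_filter.1 haU).1
  have hbI : a' ∈ I := (Finset.mem_filter.1 hbV).1
  have hab : ℓ a < ℓ a' := lt_of_le_of_lt (Finset.mem_filter.1 haU).2
    (not_le.1 (Finset.mem_filter.1 hbV).2)
  have hg := hgap a haI a' hbI hab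
  have hdV : (b : ℤ) ^ x a' ∣ ∑ a ∈ V, c a * (b : ℤ) ^ x a := by
    refine Finset.dvd_sum fun i hi => ?_
    exact Dvd.dvd.mul_left (pow_dvd_pow (b : ℤ) (hb i hi)) _
  have hdU : (b : ℤ) ^ x a' ∣ ∑ a ∈ U, c a * (b : ℤ) ^ x a := by
    have : ∑ a ∈ U, c a * (b : ℤ) ^ x a = -∑ a ∈ V, c a * (b : ℤ) ^ x a := by linarith
    rw [this]
    exact hdV.neg_right
  have hle : |∑ a ∈ U, c a * (b : ℤ) ^ x a| ≤ (∑ a ∈ I, |c a|) * (b : ℤ) ^ x a := by
    calc |∑ a ∈ U, c a * (b : ℤ) ^ x a| ≤ ∑ i ∈ U, |c i * (b : ℤ) ^ x i| :=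
          Finset.abs_sum_le_sum_abs _ _
      _ ≤ ∑ i ∈ U, |c i| * (b : ℤ) ^ x a := by
          refine Finset.sum_le_sum fun i hi => ?_
          rw [abs_mul, abs_of_nonneg (by positivity : (0 : ℤ) ≤ (b : ℤ) ^ x i)]
          exact mul_le_mul_of_nonneg_left (pow_le_pow_right₀ (by linarith) (ha i hi))
            (abs_nonneg _)
      _ = (∑ i ∈ U, |c i|) * (b : ℤ) ^ x a := by rw [Finset.sum_mul]
      _ ≤ (∑ i ∈ I, |c i|) * (b : ℤ) ^ x a := by
          refine mul_le_mul_of_nonneg_right ?_ (by positivity)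
          exact Finset.sum_le_sum_of_subset_of_nonneg (Finset.filter_subset _ _)
            (fun _ _ _ => abs_nonneg _)
  exact Int.eq_zero_of_abs_lt_dvd hdU (lt_of_le_of_lt hle hg)

/-- The block lemma. -/
theorem block {ι : Type*} {b : ℕ} (hb2 : 2 ≤ b) (I : Finset ι) (x : ι → ℕ) (c : ι → ℤ) (ℓ : ι → ℤ)
    (hsum : ∑ a ∈ I, c a * (b : ℤ) ^ x a = 0)
    (hgap : ∀ a ∈ I, ∀ a' ∈ I, ℓ a < ℓ a' → (∑ a ∈ I, |c a|) * (b : ℤ) ^ x a < (b : ℤ) ^ x a')
    (L : ℤ) : ∑ a ∈ I with ℓ a = L, c a * (b : ℤ) ^ x a = 0 := by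
  classical
  have h1 := block_le hb2 I x c ℓ hsum hgap L
  have h2 := block_le hb2 I x c ℓ hsum hgap (L - 1)
  have h3 : ∑ a ∈ I with ℓ a ≤ L, c a * (b : ℤ) ^ x a
      = ∑ a ∈ I with ℓ a ≤ L - 1, c a * (b : ℤ) ^ x a + ∑ a ∈ I with ℓ a = L, c a * (b : ℤ) ^ x a := by
    rw [← Finset.sum_union]
    · congr 1
      ext a
      simp only [Finset.mem_filter, Finset.mem_union]
      constructor
      · rintro ⟨h, h'⟩
        rcases lt_or_eq_of_le h' with h'' | h''
        · left; exact ⟨h, by omega⟩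
        · right; exact ⟨h, h''⟩
      · rintro (⟨h, h'⟩ | ⟨h, h'⟩)
        · exact ⟨h, by omega⟩
        · exact ⟨h, by omega⟩
    · rw [Finset.disjoint_left]
      intro a ha ha'
      have := (Finset.mem_filter.1 ha).2
      have := (Finset.mem_filter.1 ha').2
      omega
  rw [h1, h2] at h3
  linarith

/-- a free arc -/
lemma free_arc {N w : ℕ} (R : Finset ℕ) (hR : R.card < w) :
    ∃ k < w, ∀ ρ ∈ R, ρ < N → ¬ (k * N ≤ w * ρ ∧ w * ρ < (k + 1) * N) := by
  classical
  by_contra hcon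
  push Not at hcon
  choose! f hfR hfN hf1 hf2 using hcon
  have hinj : Set.InjOn f (range w : Set ℕ) := by
    intro k hk k' hk' h
    have h1 := mem_range.1 (mem_coe.1 hk)
    have h2 := mem_range.1 (mem_coe.1 hk')
    have a1 := hf1 k h1
    have a2 := hf2 k h1
    have b1 := hf1 k' h2
    have b2 := hf2 k' h2
    rw [h] at a1 a2
    have c1 : k * N < (k' + 1) * N := lt_of_le_of_lt a1 b2
    have c2 : k' * N < (k + 1) * N := lt_of_le_of_lt b1 a2
    have d1 : k < k' + 1 := lt_of_mul_lt_mul_right c1 (Nat.zero_le _)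
    have d2 : k' < k + 1 := lt_of_mul_lt_mul_right c2 (Nat.zero_le _)
    omega
  have h1 := card_le_card_of_injOn f (fun k hk => hfR k (mem_range.1 (mem_coe.1 hk))) hinj
  rw [card_range] at h1
  omega

/-- The data of the labels. -/
theorem labels {N : ℕ} (hN : 0 < N) (S T : Finset ℕ) (h0 : 0 ∈ S) (g₀ : ℕ)
    (hbig : (4 * T.card + 8) ^ S.card * g₀ ≤ 2 * N) :
    ∃ q : ℕ, 1 ≤ q ∧ q ≤ (4 * T.card + 8) ^ (S.card - 1) ∧ ∃ (P : ℤ) (c : ℤ) (α : ℕ → ℤ),
      0 < P ∧ (∀ i ∈ S, 0 ≤ α i) ∧ 0 < c ∧ c < P ∧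
      (∀ j : ℕ, 0 ≤ (P / N * q * j - c) / P + 1) ∧ ∃ V : (ℕ × ℕ) ⊕ Bool → ℤ,
        (∀ i j, V (Sum.inl (i, j)) = P * α i + P / N * q * j - c) ∧ V (Sum.inr false) = -c ∧
        V (Sum.inr true) = P * q - c ∧
        ∀ a ∈ (S ×ˢ T).disjSum (univ : Finset Bool), ∀ a' ∈ (S ×ˢ T).disjSum (univ : Finset Bool),
          V a / P < V a' / P →
          (Sum.elim (fun p : ℕ × ℕ => p.1 + p.2) (fun t : Bool => if t then N else 0) a) + g₀ <
          (Sum.elim (fun p : ℕ × ℕ => p.1 + p.2) (fun t : Bool => if t then N else 0) a') := by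
  classical
  set w := T.card + 2 with hw
  have hH : 4 * T.card + 8 = 4 * w := by omega
  rw [hH] at hbig ⊢
  obtain ⟨q, hq1, hq2, hq3⟩ := Pool.Agent.N449.SF.dirichlet N (4 * w) hN (by omega) S h0
  choose! α hα using hq3
  set R := (insert 0 T).image (fun j => (q * j) % N) with hR
  have hRc : R.card < w := by
    have h1 : R.card ≤ (insert 0 T).card := card_image_le
    have h2 := card_insert_le 0 T
    omega
  obtain ⟨k, hk, hfree⟩ := free_arc (N := N) R hRc
  have hNi : (0 : ℤ) < N := by exact_mod_cast hN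
  have hwi : (0 : ℤ) < w := by
    have : 0 < w := by omega
    exact_mod_cast this
  have hki : (k : ℤ) + 1 ≤ w := by exact_mod_cast hk
  have hk0 : (0 : ℤ) ≤ k := by positivity
  set P : ℤ := 2 * w * N with hP
  set c : ℤ := (2 * k + 1) * N with hc
  have hPpos : 0 < P := by positivity
  have hPN : P / N = 2 * w := by
    rw [hP]
    exact Int.mul_ediv_cancel _ hNi.ne'
  have hcpos : 0 < c := by positivity
  have hcP : c + N ≤ P := by rw [hc, hP]; nlinarith
  -- residues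
  have hres : ∀ j ∈ insert 0 T, ∃ m r : ℤ, 2 * w * q * j - c = P * m + r ∧ N ≤ r ∧ r ≤ P - N := by
    intro j hj
    have hρ : (q * j) % N ∈ R := mem_image_of_mem _ hj
    have hlt := Nat.mod_lt (q * j) hN
    have h1 := hfree _ hρ hlt
    have h2 := Nat.div_add_mod (q * j) N
    set ρ := (q * j) % N with hρdef
    set m := (q * j) / N with hm
    have h2' : (N : ℤ) * m + ρ = q * j := by exact_mod_cast h2
    have hlt' : (ρ : ℤ) + 1 ≤ N := by exact_mod_cast hlt
    have hρ0 : (0 : ℤ) ≤ ρ := by positivity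
    rcases Nat.lt_or_ge (w * ρ) (k * N) with h3 | h3
    · have h3' : (w : ℤ) * ρ < k * N := by exact_mod_cast h3
      refine ⟨m - 1, 2 * w * ρ - c + P, ?_, ?_, ?_⟩
      · rw [hP]; linear_combination (-2 * (w : ℤ)) * h2'
      · rw [hc, hP]; nlinarith
      · rw [hc]; nlinarith
    · have h4 : (k + 1) * N ≤ w * ρ := by
        by_contra hcon
        push Not at hcon
        exact h1 ⟨h3, hcon⟩
      have h4' : ((k : ℤ) + 1) * N ≤ w * ρ := by exact_mod_cast h4
      refine ⟨m, 2 * w * ρ - c, ?_, ?_, ?_⟩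
      · rw [hP]; linear_combination (-2 * (w : ℤ)) * h2'
      · rw [hc]; nlinarith
      · rw [hc, hP]; nlinarith
  refine ⟨q, hq1, hq2, P, c, α, hPpos, ?_, hcpos, by linarith, ?_, ?_⟩
  · intro i hi
    have h1 := hα i hi
    by_contra hcon
    push Not at hcon
    have h2 : α i * N ≤ -N := by nlinarith
    have h3 : (0 : ℤ) ≤ q * i := by positivity
    have h4 : (N : ℤ) ≤ |(q : ℤ) * i - α i * N| := le_trans (by linarith) (le_abs_self _)
    have h5 : (1 : ℤ) ≤ ((4 * w : ℕ) : ℤ) := by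
      have : 1 ≤ 4 * w := by omega
      exact_mod_cast this
    nlinarith
  · intro j
    have h1 : -1 ≤ (P / N * q * j - c) / P := by
      rw [Int.le_ediv_iff_mul_le hPpos, hPN]
      have : (0 : ℤ) ≤ 2 * w * q * j := by positivity
      linarith
    linarith
  refine ⟨Sum.elim (fun p => P * α p.1 + P / N * q * p.2 - c) (fun t => if t then P * q - c else -c),
    fun i j => rfl, rfl, rfl, ?_⟩
  set V : (ℕ × ℕ) ⊕ Bool → ℤ := Sum.elim (fun p => P * α p.1 + P / N * q * p.2 - c)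
    (fun t => if t then P * q - c else -c) with hV
  set x : (ℕ × ℕ) ⊕ Bool → ℕ := Sum.elim (fun p : ℕ × ℕ => p.1 + p.2)
    (fun t : Bool => if t then N else 0) with hx
  have hprop : ∀ a ∈ (S ×ˢ T).disjSum (univ : Finset Bool),
      (∃ m r : ℤ, V a = P * m + r ∧ N ≤ r ∧ r ≤ P - N) ∧
      2 * |V a - (2 * w * q * x a - c)| < N := by
    intro a ha
    rcases a with ⟨i, j⟩ | t
    · rw [inl_mem_disjSum, mem_product] at ha
      obtain ⟨hi, hj⟩ := ha
      obtain ⟨m, r, h1, h2, h3⟩ := hres j (mem_insert_of_mem hj)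
      refine ⟨⟨α i + m, r, ?_, h2, h3⟩, ?_⟩
      · show P * α i + P / N * q * j - c = _
        rw [hPN]
        linear_combination h1
      · show 2 * |P * α i + P / N * q * j - c - (2 * w * q * ((i + j : ℕ) : ℤ) - c)| < N
        have h4 := hα i hi
        have h5 : P * α i + P / N * q * j - c - (2 * w * q * ((i + j : ℕ) : ℤ) - c) =
            -(2 * w * ((q : ℤ) * i - α i * N)) := by
          rw [hPN, hP]
          push_cast
          ring
        rw [h5, abs_neg, abs_mul, abs_of_pos (by positivity : (0 : ℤ) < 2 * w)]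
        push_cast at h4
        linarith
    · obtain ⟨m, r, h1, h2, h3⟩ := hres 0 (mem_insert_self _ _)
      cases t
      · refine ⟨⟨m, r, ?_, h2, h3⟩, ?_⟩
        · show -c = _
          push_cast at h1
          linarith
        · show 2 * |-c - (2 * w * q * ((0 : ℕ) : ℤ) - c)| < N
          push_cast
          have : -c - (2 * (w : ℤ) * q * 0 - c) = 0 := by ring
          rw [this, abs_zero]
          linarith
      · refine ⟨⟨q + m, r, ?_, h2, h3⟩, ?_⟩
        · show P * q - c = _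
          push_cast at h1
          linarith
        · show 2 * |P * q - c - (2 * w * q * ((N : ℕ) : ℤ) - c)| < N
          have : P * (q : ℤ) - c - (2 * w * q * ((N : ℕ) : ℤ) - c) = 0 := by rw [hP]; ring
          rw [this, abs_zero]
          linarith
  intro a ha a' ha' hlt
  obtain ⟨⟨m, r, h1, h2, h3⟩, h4⟩ := hprop a ha
  obtain ⟨⟨m', r', h1', h2', h3'⟩, h4'⟩ := hprop a' ha'
  have hdiv : ∀ m r : ℤ, N ≤ r → r ≤ P - N → (P * m + r) / P = m := by
    intro m r hr1 hr2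
    rw [add_comm, Int.add_mul_ediv_left _ _ hPpos.ne', Int.ediv_eq_zero_of_lt (by linarith)
      (by linarith), zero_add]
  rw [h1, h1', hdiv m r h2 h3, hdiv m' r' h2' h3'] at hlt
  have h5 : V a' - V a ≥ 2 * N := by
    rw [h1, h1']
    have : P * (m + 1) ≤ P * m' := mul_le_mul_of_nonneg_left (by linarith) hPpos.le
    linarith
  set Ea := V a - (2 * w * q * x a - c) with hEa
  set Eb := V a' - (2 * w * q * x a' - c) with hEb
  have h6 := neg_abs_le Ea
  have h7 := le_abs_self Ea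
  have h8 := neg_abs_le Eb
  have h9 := le_abs_self Eb
  have hs1 : 1 ≤ S.card := card_pos.2 ⟨0, h0⟩
  have h10 : 2 * w * q * g₀ ≤ N := by
    have e1 : (4 * w) ^ S.card = 4 * w * (4 * w) ^ (S.card - 1) := by
      rw [← pow_succ']
      congr 1
      omega
    have e2 : 4 * w * q ≤ (4 * w) ^ S.card := by
      rw [e1]
      exact Nat.mul_le_mul_left _ hq2
    have e3 := Nat.mul_le_mul_right g₀ e2
    have e4 : 4 * w * q * g₀ = 2 * (2 * w * q * g₀) := by ring
    omega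
  have h10' : 2 * (w : ℤ) * q * g₀ ≤ N := by exact_mod_cast h10
  have h11 : (0 : ℤ) < 2 * w * q := by
    have : (1 : ℤ) ≤ q := by exact_mod_cast hq1
    positivity
  have h12 : (2 * (w : ℤ) * q) * (x a + g₀) < (2 * (w : ℤ) * q) * x a' := by
    have e1 : (2 * (w : ℤ) * q) * x a' = V a' + c - Eb := by rw [hEb]; ring
    have e2 : (2 * (w : ℤ) * q) * x a = V a + c - Ea := by rw [hEa]; ring
    have e3 : (2 * (w : ℤ) * q) * (x a + g₀) = (2 * (w : ℤ) * q) * x a + 2 * w * q * g₀ := by ring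
    rw [e3, e1, e2]
    linarith
  have h13 : (x a : ℤ) + g₀ < x a' := lt_of_mul_lt_mul_left h12 h11.le
  exact_mod_cast h13

end Pool.Agent.U810.FS
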