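import Mathlib

/-!
# Irreducibility of the polynomials `b ^ N X ^ q ± 1`
-/

set_option autoImplicit false

open Polynomial IntermediateField

namespace Pool.Agent.U810.FS

lemma dvd_deg {θ η : ℂ} (hθ : IsIntegral ℚ θ) (hη : η ∈ ℚ⟮θ⟯) :
    (minpoly ℚ η).natDegree ∣ (minpoly ℚ θ).natDegree := by
  have : FiniteDimensional ℚ ℚ⟮θ⟯ := adjoin.finiteDimensional hθ
  have h1 : (minpoly ℚ (⟨η, hη⟩ : ℚ⟮θ⟯)).natDegree ∣ Module.finrank ℚ ℚ⟮θ⟯ :=
    minpoly.degree_dvd (Algebra.IsIntegral.isIntegral _)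
  rw [adjoin.finrank hθ] at h1
  have h2 : minpoly ℚ (⟨η, hη⟩ : ℚ⟮θ⟯) = minpoly ℚ η :=
    IntermediateField.minpoly_eq (S := ℚ⟮θ⟯) ⟨η, hη⟩
  rwa [h2] at h1

lemma irr_of {q : ℕ} (hq : 1 ≤ q) {a : ℚ} {θ : ℂ} (hθ : θ ^ q = a)
    (hdeg : q ≤ (minpoly ℚ θ).natDegree) : Irreducible (X ^ q - C a : ℚ[X]) := by
  have hint : IsIntegral ℚ θ := ⟨X ^ q - C a, monic_X_pow_sub_C a (by omega), by simp [hθ]⟩
  have h1 : minpoly ℚ θ ∣ X ^ q - C a := minpoly.dvd ℚ θ (by simp [hθ])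
  have h2 : X ^ q - C a = minpoly ℚ θ := by
    refine (eq_of_monic_of_dvd_of_natDegree_le (minpoly.monic hint)
      (monic_X_pow_sub_C a (by omega)) h1 ?_)
    rw [natDegree_X_pow_sub_C]
    exact hdeg
  rw [h2]
  exact minpoly.irreducible hint

/-- `-1 / 2 ^ N` is not a `p`-th power for odd `p`, `N` a power of `2`. -/
lemma not_pow {m p : ℕ} (hp : p.Prime) (hp2 : p ≠ 2) (b : ℚ) :
    b ^ p ≠ -(1 / 2 ^ (2 ^ m)) := by
  intro h
  have : Fact (Nat.Prime 2) := ⟨Nat.prime_two⟩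
  have hb : b ≠ 0 := by
    rintro rfl
    rw [zero_pow hp.ne_zero] at h
    have : (0 : ℚ) < 1 / 2 ^ (2 ^ m) := by positivity
    linarith
  have h1 : (-b) ^ p = (2 ^ (2 ^ m) : ℚ)⁻¹ := by
    rw [Odd.neg_pow (hp.odd_of_ne_two hp2), h]
    simp
  have h2 := congrArg (padicValRat 2) h1
  rw [padicValRat.pow, padicValRat.inv, padicValRat.pow] at h2
  have h3 : padicValRat 2 (2 : ℚ) = 1 := by
    have := padicValRat.self (p := 2) (by norm_num)
    simpa using this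
  rw [h3, mul_one] at h2
  have h4 : (p : ℤ) ∣ (2 : ℤ) ^ m := by
    refine ⟨-(padicValRat 2 (-b)), ?_⟩
    push_cast at h2
    linarith
  have h5 : p ∣ 2 ^ m := by exact_mod_cast h4
  exact hp2 ((Nat.prime_dvd_prime_iff_eq hp Nat.prime_two).1 (hp.dvd_of_dvd_pow h5))

/-- `2 ^ N X ^ q + 1` is irreducible for `N` a power of `2` and `q < N`. -/
theorem irr_fermat {m q : ℕ} (hq : 1 ≤ q) (hqN : q < 2 ^ m) :
    Irreducible (X ^ q - C (-(1 / 2 ^ (2 ^ m))) : ℚ[X]) := by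
  set a : ℚ := -(1 / 2 ^ (2 ^ m)) with ha
  obtain ⟨e, q1, hq1, hqe⟩ := Nat.exists_eq_two_pow_mul_odd (n := q) (by omega)
  obtain ⟨θ, hθ⟩ : ∃ θ : ℂ, θ ^ q = (a : ℂ) := by
    obtain ⟨θ, hθ⟩ := IsAlgClosed.exists_pow_nat_eq (a : ℂ) (by omega : 0 < q)
    exact ⟨θ, hθ⟩
  have hint : IsIntegral ℚ θ := ⟨X ^ q - C a, monic_X_pow_sub_C a (by omega), by simp [hθ]⟩
  have he : e < m := by
    have h1 : 2 ^ e ≤ q := by
      rw [hqe]
      exact Nat.le_mul_of_pos_right _ hq1.pos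
    exact (Nat.pow_lt_pow_iff_right (by norm_num)).1 (lt_of_le_of_lt h1 hqN)
  have hmem : θ ∈ ℚ⟮θ⟯ := mem_adjoin_simple_self ℚ θ
  -- the odd part
  have hodd : q1 ∣ (minpoly ℚ θ).natDegree := by
    have h1 : (θ ^ 2 ^ e) ^ q1 = (a : ℂ) := by rw [← pow_mul, ← hqe, hθ]
    have h2 : Irreducible (X ^ q1 - C a : ℚ[X]) :=
      X_pow_sub_C_irreducible_of_odd hq1 (fun p hp hpq b => not_pow hp (by
        rintro rfl
        have := hq1.not_two_dvd_nat
        exact this hpq) b)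
    have h3 : minpoly ℚ (θ ^ 2 ^ e) = X ^ q1 - C a := by
      symm
      apply minpoly.eq_of_irreducible_of_monic h2
      · simp [h1]
      · exact monic_X_pow_sub_C a hq1.pos.ne'
    have h4 := dvd_deg hint (pow_mem hmem (2 ^ e))
    rw [h3, natDegree_X_pow_sub_C] at h4
    exact h4
  -- the even part
  have heven : 2 ^ e ∣ (minpoly ℚ θ).natDegree := by
    set ζ : ℂ := 2 ^ (2 ^ (m - e)) * θ ^ q1 with hζ
    have h1 : ζ ^ 2 ^ e = -1 := by
      rw [hζ, mul_pow, ← pow_mul, ← pow_mul, ← pow_add, mul_comm q1, ← hqe, hθ, ha,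
        Nat.sub_add_cancel he.le]
      push_cast
      field_simp
    have h2 : orderOf ζ = 2 ^ (e + 1) := by
      have : Fact (Nat.Prime 2) := ⟨Nat.prime_two⟩
      apply orderOf_eq_prime_pow
      · rw [h1]; norm_num
      · rw [pow_succ, pow_mul, h1]; norm_num
    have h3 : IsPrimitiveRoot ζ (2 ^ (e + 1)) := by
      rw [← h2]
      exact IsPrimitiveRoot.orderOf ζ
    have h4 := cyclotomic_eq_minpoly_rat h3 (by positivity)
    have h5 : ζ ∈ ℚ⟮θ⟯ := by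
      rw [hζ]
      refine mul_mem ?_ (pow_mem hmem q1)
      have : (2 : ℂ) ^ (2 ^ (m - e)) = algebraMap ℚ ℂ (2 ^ (2 ^ (m - e))) := by simp
      rw [this]
      exact IntermediateField.algebraMap_mem _ _
    have h6 := dvd_deg hint h5
    rw [← h4, natDegree_cyclotomic, Nat.totient_prime_pow_succ Nat.prime_two] at h6
    simpa using h6
  have hcop : Nat.Coprime (2 ^ e) q1 := (Nat.coprime_two_left.2 hq1).pow_left e
  apply irr_of hq hθ
  apply Nat.le_of_dvd (minpoly.natDegree_pos hint)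
  rw [hqe]
  exact hcop.mul_dvd_of_dvd_of_dvd heven hodd

end Pool.Agent.U810.FS
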