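import Pool.Agent.U810.FS.Lift
import Pool.Agent.U810.FS.Irr

/-!
# Fermat numbers have no sparse factorizations
-/

set_option autoImplicit false

open Finset Polynomial

namespace Pool.Agent.U810.FS

lemma const_of_unit {A : ℤ[X]} (h : IsUnit (A.map (Int.castRingHom ℚ))) : A = C (A.eval 1) := by
  have h1 : (A.map (Int.castRingHom ℚ)).natDegree = 0 := natDegree_eq_zero_of_isUnit h
  rw [natDegree_map_eq_of_injective (RingHom.injective_int (Int.castRingHom ℚ))] at h1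
  obtain ⟨a, rfl⟩ := natDegree_eq_zero.1 h1
  simp

/-- A factorization of an irreducible binomial. -/
lemma split {q : ℕ} (hq : 1 ≤ q) {c₀ K ε : ℤ}
    (hirr : Irreducible (C (K : ℚ) * X ^ q + C (ε : ℚ) : ℚ[X])) {A B : ℤ[X]}
    (h : C c₀ * A * B = C K * X ^ q + C ε) (hε : |ε| = 1) :
    |c₀ * A.eval 1| = 1 ∨ |c₀ * B.eval 1| = 1 := by
  have h1 : C (K : ℚ) * X ^ q + C (ε : ℚ) =
      (C (c₀ : ℚ) * A.map (Int.castRingHom ℚ)) * B.map (Int.castRingHom ℚ) := by
    have := congrArg (Polynomial.map (Int.castRingHom ℚ)) h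
    simpa using this.symm
  have hunit : ∀ x y : ℤ, x * y = ε → |x| = 1 := by
    intro x y hxy
    rw [← Int.isUnit_iff_abs_eq]
    have : IsUnit ε := Int.isUnit_iff_abs_eq.2 hε
    rw [← hxy] at this
    exact isUnit_of_mul_isUnit_left this
  have hq0 : q ≠ 0 := by omega
  rcases hirr.isUnit_or_isUnit h1 with h2 | h2
  · left
    have h3 := const_of_unit (isUnit_of_mul_isUnit_right h2)
    rw [h3] at h
    have h4 := congrArg (fun f : ℤ[X] => f.coeff 0) h
    simp only [coeff_add, coeff_C_mul, coeff_X_pow, coeff_C_zero, ← C_mul] at h4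
    rw [if_neg (by omega), mul_zero, zero_add] at h4
    exact hunit _ _ h4
  · right
    have h3 := const_of_unit h2
    rw [h3] at h
    have h4 := congrArg (fun f : ℤ[X] => f.coeff 0) h
    simp only [coeff_add, coeff_C_mul, coeff_mul_C, coeff_X_pow, coeff_C_zero] at h4
    rw [if_neg (by omega), mul_zero, zero_add] at h4
    exact hunit _ (A.coeff 0) (by rw [← h4]; ring)

/-- The general form: sparse factorizations of `b ^ N ± 1` do not exist if all the binomials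
`b ^ N X ^ q ± 1` are irreducible. -/
theorem general {b N : ℕ} (hb : 2 ≤ b) (hN : 0 < N) (S T : Finset ℕ) (h0 : 0 ∈ S) (u v : ℕ → ℤ)
    {c₀ ε d e : ℤ} (hε : |ε| = 1) (hd : d = ∑ i ∈ S, u i * (b : ℤ) ^ i)
    (he : e = ∑ j ∈ T, v j * (b : ℤ) ^ j) (heq : c₀ * d * e = (b : ℤ) ^ N + ε)
    (hd1 : |c₀ * d| ≠ 1) (he1 : |c₀ * e| ≠ 1)
    (hirr : ∀ q : ℕ, 1 ≤ q → q < N →
      Irreducible (C (((b : ℤ) ^ N : ℤ) : ℚ) * X ^ q + C (ε : ℚ) : ℚ[X])) {g₀ : ℕ}
    (hg₀ : c₀.natAbs * (∑ i ∈ S, (u i).natAbs) * (∑ j ∈ T, (v j).natAbs) + 2 ≤ b ^ g₀) :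
    2 * N < (4 * T.card + 8) ^ S.card * g₀ ∧ N < 5 ^ (S ∪ T).card * g₀ := by
  have hg1 : 1 ≤ g₀ := by
    rcases Nat.eq_zero_or_pos g₀ with h | h
    · rw [h] at hg₀
      simp at hg₀
    · exact h
  have hg : |c₀| * (∑ i ∈ S, |u i|) * (∑ j ∈ T, |v j|) + 2 ≤ (b : ℤ) ^ g₀ := by
    have h2 : ((c₀.natAbs * (∑ i ∈ S, (u i).natAbs) * (∑ j ∈ T, (v j).natAbs) + 2 : ℕ) : ℤ) ≤
        ((b ^ g₀ : ℕ) : ℤ) := by exact_mod_cast hg₀
    push_cast at h2
    exact h2
  constructor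
  · by_contra hcon
    push Not at hcon
    obtain ⟨q, hq1, hq2, A, B, hAB, hA, hB⟩ := lift hb hN S T h0 u v hε hg hcon
      (by rw [← hd, ← he]; exact heq)
    have hs1 : 1 ≤ S.card := card_pos.2 ⟨0, h0⟩
    have hqN : q < N := by
      have e1 : (4 * T.card + 8) ^ S.card =
          (4 * T.card + 8) * (4 * T.card + 8) ^ (S.card - 1) := by
        rw [← pow_succ']
        congr 1
        omega
      have e2 : (4 * T.card + 8) * q ≤ (4 * T.card + 8) ^ S.card := by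
        rw [e1]
        exact Nat.mul_le_mul_left _ hq2
      have e3 : (4 * T.card + 8) ^ S.card * 1 ≤ (4 * T.card + 8) ^ S.card * g₀ :=
        Nat.mul_le_mul_left _ hg1
      have e4 : 8 * q ≤ (4 * T.card + 8) * q := Nat.mul_le_mul_right _ (by omega)
      omega
    rcases split hq1 (hirr q hq1 hqN) hAB hε with h1 | h1
    · rw [hA, ← hd] at h1
      exact hd1 h1
    · rw [hB, ← he] at h1
      exact he1 h1
  · by_contra hcon
    push Not at hcon
    obtain ⟨q, hq1, hq2, A, B, hAB, hA, hB⟩ := lift2 hb hN S T h0 u v hε hg hcon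
      (by rw [← hd, ← he]; exact heq)
    have hs1 : 1 ≤ (S ∪ T).card := card_pos.2 ⟨0, mem_union_left _ h0⟩
    have hqN : q < N := by
      have e1 : 5 ^ (S ∪ T).card = 5 * 5 ^ ((S ∪ T).card - 1) := by
        rw [← pow_succ']
        congr 1
        omega
      have e2 : 5 * q ≤ 5 ^ (S ∪ T).card := by
        rw [e1]
        exact Nat.mul_le_mul_left _ hq2
      have e3 : 5 ^ (S ∪ T).card * 1 ≤ 5 ^ (S ∪ T).card * g₀ := Nat.mul_le_mul_left _ hg1
      omega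
    rcases split hq1 (hirr q hq1 hqN) hAB hε with h1 | h1
    · rw [hA, ← hd] at h1
      exact hd1 h1
    · rw [hB, ← he] at h1
      exact he1 h1

/-- **Fermat numbers have no sparse factorizations.** -/
theorem fermat {m : ℕ} (S T : Finset ℕ) (u v : ℕ → ℤ) {d e : ℤ}
    (hd : d = ∑ i ∈ S, u i * 2 ^ i) (he : e = ∑ j ∈ T, v j * 2 ^ j)
    (heq : d * e = 2 ^ (2 ^ m) + 1) (hd1 : |d| ≠ 1) (he1 : |e| ≠ 1) {g₀ : ℕ}
    (hg₀ : (∑ i ∈ S, (u i).natAbs) * (∑ j ∈ T, (v j).natAbs) + 2 ≤ 2 ^ g₀) :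
    2 ^ (m + 1) < (4 * T.card + 8) ^ S.card * g₀ ∧ 2 ^ m < 5 ^ (S ∪ T).card * g₀ := by
  have h0 : 0 ∈ S := by
    by_contra hcon
    have h1 : (2 : ℤ) ∣ d := by
      rw [hd]
      refine dvd_sum fun i hi => ?_
      have : i ≠ 0 := fun h => hcon (h ▸ hi)
      exact (dvd_pow_self 2 this).mul_left _
    have h2 : (2 : ℤ) ∣ 2 ^ (2 ^ m) + 1 := by
      rw [← heq]
      exact h1.mul_right _
    have h3 : (2 : ℤ) ∣ 2 ^ (2 ^ m) := dvd_pow_self 2 (by positivity)
    have h4 : (2 : ℤ) ∣ 1 := (Int.dvd_add_right h3).1 h2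
    omega
  have h := general (b := 2) (N := 2 ^ m) le_rfl (by positivity) S T h0 u v (c₀ := 1) (ε := 1)
    (d := d) (e := e) (by norm_num) (by push_cast; exact hd) (by push_cast; exact he)
    (by push_cast; rw [one_mul]; exact heq) (by rw [one_mul]; exact hd1) (by rw [one_mul]; exact he1)
    (by
      intro q hq1 hq2
      have h1 := irr_fermat hq1 hq2
      have h2 : (C ((((2 : ℕ) : ℤ) ^ (2 ^ m) : ℤ) : ℚ) * X ^ q + C ((1 : ℤ) : ℚ) : ℚ[X]) =
          C ((2 : ℚ) ^ (2 ^ m)) * (X ^ q - C (-(1 / 2 ^ (2 ^ m)))) := by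
        push_cast
        rw [mul_sub, ← C_mul]
        have : (2 : ℚ) ^ (2 ^ m) * -(1 / 2 ^ (2 ^ m)) = -1 := by field_simp
        rw [this]
        simp
      rw [h2]
      refine (irreducible_isUnit_mul ?_).2 h1
      rw [isUnit_C]
      exact IsUnit.mk0 _ (by positivity)) (g₀ := g₀) (by simpa using hg₀)
  rw [pow_succ']
  exact h

end Pool.Agent.U810.FS
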