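import Pool.Agent.U810.FS.Engine

/-!
# The lift of a factorization into sparse factors
-/

set_option autoImplicit false

open Finset Polynomial

namespace Pool.Agent.U810.FS

/-- the labels of the pairs, and of the two terms of `b ^ N + ε` -/
def lbl (q : ℕ) (α y : ℕ → ℤ) : (ℕ × ℕ) ⊕ Bool → ℤ :=
  Sum.elim (fun p : ℕ × ℕ => α p.1 + y p.2) (fun t : Bool => if t then (q : ℤ) else 0)

/-- the exponents of the pairs, and of the two terms of `b ^ N + ε` -/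
def xp (N : ℕ) : (ℕ × ℕ) ⊕ Bool → ℕ :=
  Sum.elim (fun p : ℕ × ℕ => p.1 + p.2) (fun t : Bool => if t then N else 0)

/-- The lift, for given labels. -/
theorem lift_of {b N : ℕ} (hb : 2 ≤ b) (S T : Finset ℕ) (u v : ℕ → ℤ)
    {c₀ ε : ℤ} (hε : |ε| = 1) {g₀ q : ℕ}
    (hg : |c₀| * (∑ i ∈ S, |u i|) * (∑ j ∈ T, |v j|) + 2 ≤ (b : ℤ) ^ g₀)
    (heq : c₀ * (∑ i ∈ S, u i * (b : ℤ) ^ i) * (∑ j ∈ T, v j * (b : ℤ) ^ j) = (b : ℤ) ^ N + ε)
    {α y : ℕ → ℤ} (hα : ∀ i ∈ S, 0 ≤ α i) (hy : ∀ j ∈ T, 0 ≤ y j)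
    (hgap : ∀ a ∈ (S ×ˢ T).disjSum (univ : Finset Bool),
      ∀ a' ∈ (S ×ˢ T).disjSum (univ : Finset Bool), lbl q α y a < lbl q α y a' →
        xp N a + g₀ < xp N a') :
    ∃ A B : ℤ[X],
      C c₀ * A * B = C ((b : ℤ) ^ N) * X ^ q + C ε ∧ A.eval 1 = ∑ i ∈ S, u i * (b : ℤ) ^ i ∧
      B.eval 1 = ∑ j ∈ T, v j * (b : ℤ) ^ j := by
  classical
  have hbi : (2 : ℤ) ≤ b := by exact_mod_cast hb
  refine ⟨∑ i ∈ S, C (u i * (b : ℤ) ^ i) * X ^ (α i).toNat,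
    ∑ j ∈ T, C (v j * (b : ℤ) ^ j) * X ^ (y j).toNat, ?_, ?_, ?_⟩
  swap
  · rw [eval_finsetSum]
    exact sum_congr rfl fun i _ => by simp
  swap
  · rw [eval_finsetSum]
    exact sum_congr rfl fun i _ => by simp
  -- the family
  set I := (S ×ˢ T).disjSum (univ : Finset Bool) with hI
  set cf : (ℕ × ℕ) ⊕ Bool → ℤ := Sum.elim (fun p : ℕ × ℕ => c₀ * u p.1 * v p.2)
    (fun t : Bool => if t then -1 else -ε) with hcf
  have hsum : ∑ a ∈ I, cf a * (b : ℤ) ^ xp N a = 0 := by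
    rw [hI, sum_disjSum, Fintype.sum_bool]
    simp only [hcf, xp, Sum.elim_inl, Sum.elim_inr, if_true, Bool.false_eq_true, if_false,
      pow_zero, mul_one]
    have h1 : ∑ p ∈ S ×ˢ T, c₀ * u p.1 * v p.2 * (b : ℤ) ^ (p.1 + p.2) = (b : ℤ) ^ N + ε := by
      rw [← heq, mul_assoc, sum_mul_sum, ← sum_product', mul_sum]
      refine sum_congr rfl fun p _ => ?_
      rw [pow_add]
      ring
    rw [h1]
    ring
  have habs : ∑ a ∈ I, |cf a| = |c₀| * (∑ i ∈ S, |u i|) * (∑ j ∈ T, |v j|) + 2 := by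
    rw [hI, sum_disjSum, Fintype.sum_bool]
    simp only [hcf, Sum.elim_inl, Sum.elim_inr, if_true, Bool.false_eq_true, if_false, abs_neg,
      abs_one, hε]
    have h1 : ∑ p ∈ S ×ˢ T, |c₀ * u p.1 * v p.2| =
        |c₀| * (∑ i ∈ S, |u i|) * (∑ j ∈ T, |v j|) := by
      rw [mul_assoc, sum_mul_sum, ← sum_product', mul_sum]
      refine sum_congr rfl fun p _ => ?_
      rw [abs_mul, abs_mul]
      ring
    rw [h1]
    ring
  have hblock := block hb I (xp N) cf (lbl q α y) hsum (by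
    intro a ha a' ha' hlt
    have h1 := hgap a ha a' ha' hlt
    rw [habs]
    calc (|c₀| * (∑ i ∈ S, |u i|) * (∑ j ∈ T, |v j|) + 2) * (b : ℤ) ^ xp N a
        ≤ (b : ℤ) ^ g₀ * (b : ℤ) ^ xp N a := mul_le_mul_of_nonneg_right hg (by positivity)
      _ = (b : ℤ) ^ (xp N a + g₀) := by rw [← pow_add, add_comm]
      _ < (b : ℤ) ^ xp N a' := pow_lt_pow_right₀ (by linarith) h1)
  -- compare coefficients
  have hprod : C c₀ * (∑ i ∈ S, C (u i * (b : ℤ) ^ i) * X ^ (α i).toNat) *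
      (∑ j ∈ T, C (v j * (b : ℤ) ^ j) * X ^ (y j).toNat) =
      ∑ p ∈ S ×ˢ T, C (c₀ * u p.1 * v p.2 * (b : ℤ) ^ (p.1 + p.2)) *
        X ^ ((α p.1).toNat + (y p.2).toNat) := by
    rw [mul_assoc, sum_mul_sum, ← sum_product', mul_sum]
    refine sum_congr rfl fun p _ => ?_
    rw [pow_add, pow_add]
    simp only [map_mul]
    ring
  rw [hprod]
  ext n
  rw [finsetSum_coeff]
  simp only [coeff_C_mul, coeff_X_pow, coeff_add, coeff_C, mul_ite, mul_one, mul_zero]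
  have h1 := hblock n
  rw [sum_filter, hI, sum_disjSum, Fintype.sum_bool] at h1
  simp only [hcf, xp, lbl, Sum.elim_inl, Sum.elim_inr, if_true, Bool.false_eq_true, if_false,
      pow_zero, mul_one] at h1
  have h2 : ∑ p ∈ S ×ˢ T, (if n = (α p.1).toNat + (y p.2).toNat then
      c₀ * u p.1 * v p.2 * (b : ℤ) ^ (p.1 + p.2) else 0) =
      ∑ p ∈ S ×ˢ T, (if α p.1 + y p.2 = (n : ℤ) then
        c₀ * u p.1 * v p.2 * (b : ℤ) ^ (p.1 + p.2) else 0) := by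
    refine sum_congr rfl fun p hp => ?_
    obtain ⟨i, j⟩ := p
    rw [mem_product] at hp
    have h4 := hα i hp.1
    have h5 := hy j hp.2
    have h6 : n = (α i).toNat + (y j).toNat ↔ α i + y j = (n : ℤ) := by omega
    simp only [h6]
  rw [h2]
  have e1 : (0 : ℤ) = (n : ℤ) ↔ n = 0 := by omega
  have e2 : (q : ℤ) = (n : ℤ) ↔ n = q := by omega
  simp only [e1, e2] at h1
  split_ifs at h1 ⊢ <;> linarith

/-- Lift with the first labels. -/
theorem lift {b N : ℕ} (hb : 2 ≤ b) (hN : 0 < N) (S T : Finset ℕ) (h0 : 0 ∈ S) (u v : ℕ → ℤ)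
    {c₀ ε : ℤ} (hε : |ε| = 1) {g₀ : ℕ}
    (hg : |c₀| * (∑ i ∈ S, |u i|) * (∑ j ∈ T, |v j|) + 2 ≤ (b : ℤ) ^ g₀)
    (hbig : (4 * T.card + 8) ^ S.card * g₀ ≤ 2 * N)
    (heq : c₀ * (∑ i ∈ S, u i * (b : ℤ) ^ i) * (∑ j ∈ T, v j * (b : ℤ) ^ j) = (b : ℤ) ^ N + ε) :
    ∃ q : ℕ, 1 ≤ q ∧ q ≤ (4 * T.card + 8) ^ (S.card - 1) ∧ ∃ A B : ℤ[X],
      C c₀ * A * B = C ((b : ℤ) ^ N) * X ^ q + C ε ∧ A.eval 1 = ∑ i ∈ S, u i * (b : ℤ) ^ i ∧
      B.eval 1 = ∑ j ∈ T, v j * (b : ℤ) ^ j := by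
  classical
  obtain ⟨q, hq1, hq2, P, c, α, hP, hα, hc0, hcP, hy, V, hV1, hV2, hV3, hgap⟩ :=
    labels hN S T h0 g₀ hbig
  set y : ℕ → ℤ := fun j => (P / N * q * j - c) / P + 1 with hydef
  have hl1 : ∀ i j : ℕ, V (Sum.inl (i, j)) / P + 1 = α i + y j := by
    intro i j
    rw [hV1, hydef]
    have : P * α i + P / N * q * j - c = (P / N * q * j - c) + P * α i := by ring
    rw [this, Int.add_mul_ediv_left _ _ hP.ne']
    ring
  have hl2 : V (Sum.inr false) / P + 1 = 0 := by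
    rw [hV2]
    have h1 : (-c) / P = -1 := by
      rw [show -c = (P - c) + P * (-1) by ring, Int.add_mul_ediv_left _ _ hP.ne',
        Int.ediv_eq_zero_of_lt (by linarith) (by linarith)]
      norm_num
    rw [h1]; norm_num
  have hl3 : V (Sum.inr true) / P + 1 = q := by
    rw [hV3]
    have h1 : (P * q - c) / P = (q : ℤ) - 1 := by
      rw [show P * (q : ℤ) - c = (P - c) + P * ((q : ℤ) - 1) by ring,
        Int.add_mul_ediv_left _ _ hP.ne', Int.ediv_eq_zero_of_lt (by linarith) (by linarith)]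
      ring
    rw [h1]; ring
  have hl : ∀ a, lbl q α y a = V a / P + 1 := by
    rintro (⟨i, j⟩ | t)
    · exact (hl1 i j).symm
    · cases t
      · exact hl2.symm
      · exact hl3.symm
  refine ⟨q, hq1, hq2, lift_of hb S T u v hε hg heq hα (fun j _ => hy j) ?_⟩
  intro a ha a' ha' hlt
  rw [hl, hl] at hlt
  exact hgap a ha a' ha' (by linarith)

/-- Lift with all exponents approximated simultaneously. -/
theorem lift2 {b N : ℕ} (hb : 2 ≤ b) (hN : 0 < N) (S T : Finset ℕ) (h0 : 0 ∈ S) (u v : ℕ → ℤ)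
    {c₀ ε : ℤ} (hε : |ε| = 1) {g₀ : ℕ}
    (hg : |c₀| * (∑ i ∈ S, |u i|) * (∑ j ∈ T, |v j|) + 2 ≤ (b : ℤ) ^ g₀)
    (hbig : 5 ^ (S ∪ T).card * g₀ ≤ N)
    (heq : c₀ * (∑ i ∈ S, u i * (b : ℤ) ^ i) * (∑ j ∈ T, v j * (b : ℤ) ^ j) = (b : ℤ) ^ N + ε) :
    ∃ q : ℕ, 1 ≤ q ∧ q ≤ 5 ^ ((S ∪ T).card - 1) ∧ ∃ A B : ℤ[X],
      C c₀ * A * B = C ((b : ℤ) ^ N) * X ^ q + C ε ∧ A.eval 1 = ∑ i ∈ S, u i * (b : ℤ) ^ i ∧
      B.eval 1 = ∑ j ∈ T, v j * (b : ℤ) ^ j := by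
  classical
  obtain ⟨q, hq1, hq2, hq3⟩ := Pool.Agent.N449.SF.dirichlet N 5 hN (by norm_num) (S ∪ T)
    (mem_union_left _ h0)
  choose! α hα using hq3
  have hNi : (0 : ℤ) < N := by exact_mod_cast hN
  have hα0 : ∀ i ∈ S ∪ T, 0 ≤ α i := by
    intro i hi
    have h1 := hα i hi
    by_contra hcon
    push Not at hcon
    have h2 : α i * N ≤ -N := by nlinarith
    have h3 : (0 : ℤ) ≤ q * i := by positivity
    have h4 : (N : ℤ) ≤ |(q : ℤ) * i - α i * N| := le_trans (by linarith) (le_abs_self _)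
    push_cast at h1
    linarith
  have hc1 : 1 ≤ (S ∪ T).card := card_pos.2 ⟨0, mem_union_left _ h0⟩
  have hqg : 5 * q * g₀ ≤ N := by
    have e1 : 5 ^ (S ∪ T).card = 5 * 5 ^ ((S ∪ T).card - 1) := by
      rw [← pow_succ']
      congr 1
      omega
    have e2 : 5 * q ≤ 5 ^ (S ∪ T).card := by rw [e1]; exact Nat.mul_le_mul_left _ hq2
    exact (Nat.mul_le_mul_right g₀ e2).trans hbig
  have hqg' : 5 * (q : ℤ) * g₀ ≤ N := by exact_mod_cast hqg
  refine ⟨q, hq1, hq2, lift_of hb S T u v hε hg heq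
    (fun i hi => hα0 i (mem_union_left _ hi)) (fun j hj => hα0 j (mem_union_right _ hj)) ?_⟩
  have hprop : ∀ a ∈ (S ×ˢ T).disjSum (univ : Finset Bool),
      5 * |(q : ℤ) * xp N a - lbl q α α a * N| < 2 * N := by
    intro a ha
    rcases a with ⟨i, j⟩ | t
    · rw [inl_mem_disjSum, mem_product] at ha
      have h1 := hα i (mem_union_left _ ha.1)
      have h2 := hα j (mem_union_right _ ha.2)
      push_cast at h1 h2
      show 5 * |(q : ℤ) * ((i + j : ℕ) : ℤ) - (α i + α j) * N| < 2 * N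
      have h3 : (q : ℤ) * ((i + j : ℕ) : ℤ) - (α i + α j) * N =
          (q * i - α i * N) + (q * j - α j * N) := by
        push_cast
        ring
      rw [h3]
      have h4 := abs_add_le ((q : ℤ) * i - α i * N) (q * j - α j * N)
      linarith
    · cases t
      · show 5 * |(q : ℤ) * ((0 : ℕ) : ℤ) - 0 * N| < 2 * N
        simp only [Nat.cast_zero, mul_zero, zero_mul, sub_zero, abs_zero]
        linarith
      · show 5 * |(q : ℤ) * ((N : ℕ) : ℤ) - q * N| < 2 * N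
        rw [sub_self, abs_zero]
        linarith
  intro a ha a' ha' hlt
  have h1 := hprop a ha
  have h2 := hprop a' ha'
  have h3 := neg_abs_le ((q : ℤ) * xp N a - lbl q α α a * N)
  have h4 := le_abs_self ((q : ℤ) * xp N a - lbl q α α a * N)
  have h5 := neg_abs_le ((q : ℤ) * xp N a' - lbl q α α a' * N)
  have h6 := le_abs_self ((q : ℤ) * xp N a' - lbl q α α a' * N)
  have h7 : (lbl q α α a + 1) * N ≤ lbl q α α a' * N :=
    mul_le_mul_of_nonneg_right (by linarith) hNi.le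
  have h8 : 5 * (q : ℤ) * (xp N a + g₀) < 5 * (q : ℤ) * xp N a' := by linarith
  have h9 : (0 : ℤ) < 5 * (q : ℤ) := by
    have : (1 : ℤ) ≤ q := by exact_mod_cast hq1
    linarith
  have h10 := lt_of_mul_lt_mul_left h8 h9.le
  exact_mod_cast h10

end Pool.Agent.U810.FS
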